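import Pool.Agent.Y120.J.Defs

/-! J-RIC (job 2957, helper929 for helper120): the third order equation of `j` on the imaginary axis -/

set_option autoImplicit false

open Filter Topology UpperHalfPlane
open scoped Derivative ModularForm Manifold

namespace Pool.Agent.Y929.J

open Pool.Agent.TH21.MS (g0 g1 g2 E4 E6 jj Iy xx A3 A5 E4_eq E6_eq E4_I E6_I jj_I g0_deriv g1_deriv
  g0_log xx_tendsto A3_zero A5_zero A3_an A5_an)
open Pool.Agent.Y120.J

noncomputable section

/-- `E_4` on the axis -/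
def a (y : ℝ) : ℝ := 1 + 240 * (xx y * A3 ℝ (xx y))

/-- `E_6` on the axis -/
def b (y : ℝ) : ℝ := 1 - 504 * (xx y * A5 ℝ (xx y))

/-- `E_2` on the axis -/
def c (y : ℝ) : ℝ := ((EisensteinSeries.E2 ∘ ofComplex) (Complex.I * y)).re

theorem ofC {y : ℝ} (hy : 0 < y) : ofComplex (Complex.I * y) = Iy y hy := by
  rw [ofComplex_apply_of_im_pos (by simpa using hy)]
  rfl

theorem curve {f : ℍ → ℂ} (hf : MDiff f) {y : ℝ} (hy : 0 < y) :
    HasDerivAt (fun t : ℝ => (f ∘ ofComplex) (Complex.I * t))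
      (-(2 * Real.pi) * Derivative.normalizedDerivOfComplex f (Iy y hy)) y := by
  have h0 := UpperHalfPlane.mdifferentiable_iff.1 hf
  have hopen : IsOpen {z : ℂ | 0 < z.im} := isOpen_upperHalfPlaneSet
  have hmem : (Complex.I * (y : ℂ)) ∈ {z : ℂ | 0 < z.im} := by simpa using hy
  have h1 : HasDerivAt (f ∘ ofComplex) (deriv (f ∘ ofComplex) (Complex.I * y)) (Complex.I * (y : ℂ)) :=
    (h0.differentiableAt (hopen.mem_nhds hmem)).hasDerivAt
  have h2 : HasDerivAt (fun w : ℂ => Complex.I * w) Complex.I (y : ℂ) := by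
    simpa using (hasDerivAt_id (y : ℂ)).const_mul Complex.I
  have h3 : HasDerivAt (fun w : ℂ => (f ∘ ofComplex) (Complex.I * w))
      (deriv (f ∘ ofComplex) (Complex.I * y) * Complex.I) (y : ℂ) := h1.comp (y : ℂ) h2
  refine h3.comp_ofReal.congr_deriv ?_
  unfold Derivative.normalizedDerivOfComplex
  have e1 : ((Iy y hy : ℍ) : ℂ) = Complex.I * y := rfl
  rw [e1]
  have hpi : (Real.pi : ℂ) ≠ 0 := by exact_mod_cast Real.pi_ne_zero
  field_simp
  linear_combination (deriv (f ∘ ofComplex) (Complex.I * y)) * Complex.I_sq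

theorem re_comp {f : ℝ → ℂ} {w : ℂ} {y : ℝ} (h : HasDerivAt f w y) :
    HasDerivAt (fun t : ℝ => (f t).re) w.re y := by
  have h1 := (Complex.reCLM.hasFDerivAt (x := f y)).comp_hasDerivAt y h
  exact h1

theorem im_comp {f : ℝ → ℂ} {w : ℂ} {y : ℝ} (h : HasDerivAt f w y) :
    HasDerivAt (fun t : ℝ => (f t).im) w.im y := by
  have h1 := (Complex.imCLM.hasFDerivAt (x := f y)).comp_hasDerivAt y h
  exact h1

theorem im_zero {f : ℝ → ℝ} {w : ℂ} {y : ℝ} (h : HasDerivAt (fun t : ℝ => ((f t : ℝ) : ℂ)) w y) :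
    w.im = 0 ∧ HasDerivAt f w.re y := by
  have h1 : HasDerivAt (fun t : ℝ => ((f t : ℝ) : ℂ).im) w.im y := im_comp h
  have h2 : HasDerivAt (fun t : ℝ => ((f t : ℝ) : ℂ).re) w.re y := re_comp h
  simp only [Complex.ofReal_im] at h1
  simp only [Complex.ofReal_re] at h2
  exact ⟨h1.unique (hasDerivAt_const y 0), h2⟩

theorem E4v {y : ℝ} (hy : 0 < y) : ModularForm.E₄ (Iy y hy) = ((a y : ℝ) : ℂ) := by
  rw [← E4_eq]
  exact E4_I y

theorem E6v {y : ℝ} (hy : 0 < y) : ModularForm.E₆ (Iy y hy) = ((b y : ℝ) : ℂ) := by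
  rw [← E6_eq]
  exact E6_I y

theorem da (h46 : T_RAM46) {y : ℝ} (hy : 0 < y) : HasDerivAt (fun t : ℝ => ((a t : ℝ) : ℂ))
    (-(2 * Real.pi) * (3⁻¹ * (EisensteinSeries.E2 (Iy y hy) * a y - b y))) y := by
  have h1 := curve (f := fun w => ModularForm.E₄ w) (ModularFormClass.holo _) hy
  rw [(h46 (Iy y hy)).1, E4v, E6v] at h1
  refine h1.congr_of_eventuallyEq ?_
  filter_upwards [lt_mem_nhds hy] with t ht
  simp only [Function.comp_apply, ofC ht]
  exact (E4v ht).symm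

theorem db (h46 : T_RAM46) {y : ℝ} (hy : 0 < y) : HasDerivAt (fun t : ℝ => ((b t : ℝ) : ℂ))
    (-(2 * Real.pi) * (2⁻¹ * (EisensteinSeries.E2 (Iy y hy) * b y - (a y) ^ 2))) y := by
  have h1 := curve (f := fun w => ModularForm.E₆ w) (ModularFormClass.holo _) hy
  rw [(h46 (Iy y hy)).2, E4v, E6v] at h1
  refine h1.congr_of_eventuallyEq ?_
  filter_upwards [lt_mem_nhds hy] with t ht
  simp only [Function.comp_apply, ofC ht]
  exact (E6v ht).symm

theorem E2v (h46 : T_RAM46) {y : ℝ} (hy : 0 < y) (ha : a y ≠ 0) :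
    EisensteinSeries.E2 (Iy y hy) = ((c y : ℝ) : ℂ) := by
  have h1 := (im_zero (da h46 hy)).1
  have e1 : (-(2 * (Real.pi : ℂ)) * (3⁻¹ * (EisensteinSeries.E2 (Iy y hy) * a y - b y))) =
      ((-(2 * Real.pi) / 3 : ℝ) : ℂ) * (EisensteinSeries.E2 (Iy y hy) * a y - b y) := by
    push_cast
    ring
  rw [e1, Complex.im_ofReal_mul] at h1
  have h2 : (EisensteinSeries.E2 (Iy y hy) * a y - b y).im = 0 := by
    rcases mul_eq_zero.1 h1 with h | h
    · have := Real.pi_pos
      linarith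
    · exact h
  rw [Complex.sub_im, Complex.ofReal_im, sub_zero, Complex.im_mul_ofReal] at h2
  have h3 : (EisensteinSeries.E2 (Iy y hy)).im = 0 := by
    rcases mul_eq_zero.1 h2 with h | h
    · exact h
    · exact absurd h ha
  refine Complex.ext ?_ ?_
  · unfold c
    rw [Function.comp_apply, ofC hy, Complex.ofReal_re]
  · rw [h3, Complex.ofReal_im]

theorem da' (h46 : T_RAM46) {y : ℝ} (hy : 0 < y) (ha : a y ≠ 0) :
    HasDerivAt a (-(2 * Real.pi) * (3⁻¹ * (c y * a y - b y))) y := by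
  have h1 := (im_zero (da h46 hy)).2
  rw [E2v h46 hy ha] at h1
  refine h1.congr_deriv ?_
  have e1 : (-(2 * (Real.pi : ℂ)) * (3⁻¹ * (((c y : ℝ) : ℂ) * a y - b y))) =
      ((-(2 * Real.pi) * (3⁻¹ * (c y * a y - b y)) : ℝ) : ℂ) := by push_cast; ring
  rw [e1, Complex.ofReal_re]

theorem db' (h46 : T_RAM46) {y : ℝ} (hy : 0 < y) (ha : a y ≠ 0) :
    HasDerivAt b (-(2 * Real.pi) * (2⁻¹ * (c y * b y - a y ^ 2))) y := by
  have h1 := (im_zero (db h46 hy)).2
  rw [E2v h46 hy ha] at h1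
  refine h1.congr_deriv ?_
  have e1 : (-(2 * (Real.pi : ℂ)) * (2⁻¹ * (((c y : ℝ) : ℂ) * b y - (a y) ^ 2))) =
      ((-(2 * Real.pi) * (2⁻¹ * (c y * b y - a y ^ 2)) : ℝ) : ℂ) := by push_cast; ring
  rw [e1, Complex.ofReal_re]

theorem dc' (h46 : T_RAM46) (h2 : T_RAM2) {y : ℝ} (hy : 0 < y) (ha : a y ≠ 0) :
    HasDerivAt c (-(2 * Real.pi) * (12⁻¹ * (c y ^ 2 - a y))) y := by
  have h1 := curve (f := EisensteinSeries.E2) E2_mdifferentiable hy
  rw [h2 (Iy y hy), E4v, E2v h46 hy ha] at h1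
  have h3 : HasDerivAt (fun t : ℝ => ((EisensteinSeries.E2 ∘ ofComplex) (Complex.I * t)).re)
      (-(2 * (Real.pi : ℂ)) * (12⁻¹ * (((c y : ℝ) : ℂ) ^ 2 - a y))).re y := re_comp h1
  refine h3.congr_deriv ?_
  have e1 : (-(2 * (Real.pi : ℂ)) * (12⁻¹ * (((c y : ℝ) : ℂ) ^ 2 - a y))) =
      ((-(2 * Real.pi) * (12⁻¹ * (c y ^ 2 - a y)) : ℝ) : ℂ) := by push_cast; ring
  rw [e1, Complex.ofReal_re]

theorem g0v (y : ℝ) : g0 y = 1728 * a y ^ 3 / (a y ^ 3 - b y ^ 2) := by
  have h1 := jj_I y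
  unfold jj at h1
  rw [E4_I, E6_I] at h1
  have h2 : ((g0 y : ℝ) : ℂ) = ((1728 * a y ^ 3 / (a y ^ 3 - b y ^ 2) : ℝ) : ℂ) := by
    rw [← h1]
    unfold a b
    push_cast
    ring
  exact_mod_cast h2

theorem a_lim : Tendsto a atTop (𝓝 1) := by
  have h1 : Tendsto (fun y => A3 ℝ (xx y)) atTop (𝓝 (A3 ℝ 0)) :=
    ((A3_an ℝ 0 (by simp)).continuousAt.tendsto).comp xx_tendsto
  have h2 := (xx_tendsto.mul h1).const_mul 240 |>.const_add 1
  simp only [zero_mul, mul_zero, add_zero] at h2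
  exact h2

theorem b_lim : Tendsto b atTop (𝓝 1) := by
  have h1 : Tendsto (fun y => A5 ℝ (xx y)) atTop (𝓝 (A5 ℝ 0)) :=
    ((A5_an ℝ 0 (by simp)).continuousAt.tendsto).comp xx_tendsto
  have h2 := (xx_tendsto.mul h1).const_mul 504 |>.const_sub 1
  simp only [zero_mul, mul_zero, sub_zero] at h2
  exact h2

theorem t_ric (h46 : T_RAM46) (h2 : T_RAM2) : T_RIC := by
  have hpi := Real.pi_pos
  obtain ⟨y0, hy0, hg⟩ := g0_log
  have e1 : ∀ᶠ y in atTop, 0 < a y := a_lim.eventually (lt_mem_nhds one_pos)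
  have e2 : ∀ᶠ y in atTop, 0 < b y := b_lim.eventually (lt_mem_nhds one_pos)
  obtain ⟨y1, hy1⟩ := eventually_atTop.1 (e1.and e2)
  obtain ⟨Y0, hY0⟩ : ∃ Y0 : ℝ, Y0 = max (max y0 y1) 1 := ⟨_, rfl⟩
  have hY1 : 1 ≤ Y0 := hY0 ▸ le_max_right _ _
  have hYy0 : y0 ≤ Y0 := hY0 ▸ (le_max_left _ _).trans (le_max_left _ _)
  have hYy1 : y1 ≤ Y0 := hY0 ▸ (le_max_right _ _).trans (le_max_left _ _)
  -- facts for `y > Y0`
  have ka : ∀ y, Y0 < y → 0 < a y := fun y hy => (hy1 y (by linarith)).1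
  have kb : ∀ y, Y0 < y → 0 < b y := fun y hy => (hy1 y (by linarith)).2
  have kg : ∀ y, Y0 < y → 0 < g0 y := fun y hy => (hg y (by linarith)).1
  have kd : ∀ y, Y0 < y → 0 < a y ^ 3 - b y ^ 2 := by
    intro y hy
    have h3 := kg y hy
    rw [g0v] at h3
    by_contra hcon
    push Not at hcon
    have h4 : 1728 * a y ^ 3 / (a y ^ 3 - b y ^ 2) ≤ 0 :=
      div_nonpos_of_nonneg_of_nonpos (by have := ka y hy; positivity) hcon
    linarith
  have kp : ∀ y, Y0 < y → 0 < y := fun y hy => by linarith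
  -- first derivative
  have k1 : ∀ y, Y0 < y → g1 y = 2 * Real.pi * g0 y * (b y / a y) := by
    intro y hy
    have ha := ka y hy
    have hb := kb y hy
    have hd := kd y hy
    have da := da' h46 (kp y hy) ha.ne'
    have db := db' h46 (kp y hy) ha.ne'
    have h3 : HasDerivAt (fun y => 1728 * a y ^ 3 / (a y ^ 3 - b y ^ 2)) (2 * Real.pi * g0 y * (b y / a y)) y := by
      refine (((da.pow 3).const_mul 1728).div ((da.pow 3).sub (db.pow 2)) hd.ne').congr_deriv ?_
      rw [g0v]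
      simp only [Nat.cast_ofNat, Nat.add_one_sub_one, Pi.sub_apply, Pi.pow_apply]
      field_simp
      ring
    have h4 := g0_deriv y (kp y hy)
    rw [show g0 = fun y => 1728 * a y ^ 3 / (a y ^ 3 - b y ^ 2) from funext g0v] at h4
    exact h4.unique h3
  -- second derivative
  have k2 : ∀ y, Y0 < y → g2 y = 2 * Real.pi * (g1 y * (b y / a y) + g0 y *
      (-(2 * Real.pi) * (c y * a y * b y / 6 - a y ^ 3 / 2 + b y ^ 2 / 3) / a y ^ 2)) := by
    intro y hy
    have ha := ka y hy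
    have hb := kb y hy
    have da := da' h46 (kp y hy) ha.ne'
    have db := db' h46 (kp y hy) ha.ne'
    have h3 : HasDerivAt (fun y => 2 * Real.pi * g0 y * (b y / a y)) (2 * Real.pi * (g1 y * (b y / a y) +
        g0 y * (-(2 * Real.pi) * (c y * a y * b y / 6 - a y ^ 3 / 2 + b y ^ 2 / 3) / a y ^ 2))) y := by
      refine (((g0_deriv y (kp y hy)).const_mul (2 * Real.pi)).mul (db.div da ha.ne')).congr_deriv ?_
      simp only [Pi.div_apply]
      field_simp
      ring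
    have h4 : HasDerivAt (fun y => 2 * Real.pi * g0 y * (b y / a y)) (g2 y) y := by
      refine (g1_deriv y (kp y hy)).congr_of_eventuallyEq ?_
      filter_upwards [lt_mem_nhds hy] with t ht
      exact (k1 t ht).symm
    exact h4.unique h3
  have kg1 : ∀ y, Y0 < y → 0 < g1 y := by
    intro y hy
    rw [k1 y hy]
    have ha := ka y hy
    have hb := kb y hy
    have hg := kg y hy
    positivity
  -- `sg`
  have k3 : ∀ y, Y0 < y → sg y = c y / 12 - a y ^ 2 / (4 * b y) + b y / (6 * a y) := by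
    intro y hy
    have ha := ka y hy
    have hb := kb y hy
    have hg := kg y hy
    unfold sg
    rw [k2 y hy, k1 y hy]
    field_simp
    ring
  refine ⟨Y0 + 1, by linarith, fun y hy => ?_⟩
  have hy' : Y0 < y := by linarith
  have ha := ka y hy'
  have hb := kb y hy'
  have hd := kd y hy'
  refine ⟨?_, kg1 y hy', ?_⟩
  · rw [g0v, lt_div_iff₀ hd]
    have : 0 < b y ^ 2 := by positivity
    linarith
  · have da := da' h46 (kp y hy') ha.ne'
    have db := db' h46 (kp y hy') ha.ne'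
    have dc := dc' h46 h2 (kp y hy') ha.ne'
    have h3 : HasDerivAt (fun y => c y / 12 - a y ^ 2 / (4 * b y) + b y / (6 * a y))
        (-(2 * Real.pi) * (sg y ^ 2 + (g1 y / (2 * Real.pi * g0 y)) ^ 2 *
        ((1 / g0 y) * (82944 * (1 / g0 y) - 372) / (1 - 1728 * (1 / g0 y)) ^ 2))) y := by
      refine (((dc.div_const 12).sub ((da.pow 2).div (db.const_mul 4) (by positivity))).add
        (db.div (da.const_mul 6) (by positivity))).congr_deriv ?_
      have hg := kg y hy'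
      have e3 : g1 y / (2 * Real.pi * g0 y) = b y / a y := by
        rw [k1 y hy']
        field_simp
      have e4 : 1 / g0 y = (a y ^ 3 - b y ^ 2) / (1728 * a y ^ 3) := by
        rw [g0v, one_div_div]
      have e5 : 1 - 1728 * (1 / g0 y) = b y ^ 2 / a y ^ 3 := by
        rw [e4]
        field_simp
        ring
      rw [e3, e5, e4, k3 y hy']
      simp only [Nat.cast_ofNat, Nat.add_one_sub_one, Pi.pow_apply, pow_one]
      field_simp
      ring
    refine h3.congr_of_eventuallyEq ?_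
    filter_upwards [lt_mem_nhds hy'] with t ht
    exact k3 t ht

end

end Pool.Agent.Y929.J
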